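import Pool.Agent.W345.GK.TF

/-!
# Project GK: independence and count (GK-TA5)
-/

set_option autoImplicit false

open Polynomial Finset

namespace Pool.Agent.W585.GK.TA5

open Pool.Agent.W345.GK

/-! ### Alternants -/

/-- the exponent of a term of the alternant -/
noncomputable def tt {n : ℕ} (s : Fin n → ℕ) (σ : Equiv.Perm (Fin n)) : Fin n →₀ ℕ :=
  Finsupp.equivFunOnFinite.symm fun i => s (σ⁻¹ i)

theorem alt_eq {L : Type} [Field L] {n : ℕ} (s : Fin n → ℕ) :
    (alt s : MvPolynomial (Fin n) L) = ∑ σ : Equiv.Perm (Fin n),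
      MvPolynomial.C (((Equiv.Perm.sign σ : ℤˣ) : ℤ) : L) * MvPolynomial.monomial (tt s σ) 1 := by
  rw [alt, Matrix.det_apply']
  refine Finset.sum_congr rfl fun σ _ => ?_
  have e1 : (MvPolynomial.C (((Equiv.Perm.sign σ : ℤˣ) : ℤ) : L) : MvPolynomial (Fin n) L) =
      (((Equiv.Perm.sign σ : ℤˣ) : ℤ) : MvPolynomial (Fin n) L) := map_intCast _ _
  rw [e1]
  congr 1
  rw [MvPolynomial.monomial_eq, MvPolynomial.C_1, one_mul, Finsupp.prod_fintype _ _ (by simp)]
  refine Eq.trans ?_ (Equiv.prod_comp σ (fun i => (MvPolynomial.X i : MvPolynomial (Fin n) L) ^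
    (tt s σ) i))
  refine Finset.prod_congr rfl fun j _ => ?_
  simp [tt]

theorem perm_eq {n : ℕ} (σ : Equiv.Perm (Fin n)) (h : StrictMono σ) : σ = 1 := by
  have h1 : (σ : Fin n → Fin n) = id := (StrictMono.range_inj h strictMono_id).1 (by
    rw [σ.surjective.range_eq, Set.range_id])
  exact Equiv.ext fun i => congrFun h1 i

theorem coeff_alt {L : Type} [Field L] {n : ℕ} (s s' : Fin n → ℕ) (hs : StrictAnti s)
    (hs' : StrictAnti s') :
    (alt s : MvPolynomial (Fin n) L).coeff (Finsupp.equivFunOnFinite.symm s') =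
      if s = s' then 1 else 0 := by
  classical
  rw [alt_eq, MvPolynomial.coeff_sum]
  have key : ∀ σ : Equiv.Perm (Fin n), tt s σ = Finsupp.equivFunOnFinite.symm s' →
      σ = 1 ∧ s = s' := by
    intro σ h
    have h1 : ∀ i, s (σ⁻¹ i) = s' i := by
      intro i
      have := DFunLike.congr_fun h i
      simpa [tt] using this
    have h2 : StrictMono (σ⁻¹ : Equiv.Perm (Fin n)) := by
      intro i j hij
      have h3 := hs' hij
      rw [← h1, ← h1] at h3
      exact hs.lt_iff_gt.1 h3
    have h4 := perm_eq _ h2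
    have h5 : σ = 1 := inv_eq_one.1 h4
    refine ⟨h5, funext fun i => ?_⟩
    have := h1 i
    rw [h4] at this
    exact this
  rw [Finset.sum_eq_single (1 : Equiv.Perm (Fin n))]
  · rw [MvPolynomial.coeff_C_mul, MvPolynomial.coeff_monomial]
    have e : tt s 1 = Finsupp.equivFunOnFinite.symm s := by
      ext i
      simp [tt]
    rw [e]
    by_cases h : s = s'
    · subst h
      simp
    · rw [if_neg h, if_neg]
      · simp
      · intro h'
        exact h (Finsupp.equivFunOnFinite.symm.injective h')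
  · intro σ _ hσ
    rw [MvPolynomial.coeff_C_mul, MvPolynomial.coeff_monomial, if_neg, mul_zero]
    intro h
    exact hσ (key σ h).1
  · intro h
    exact absurd (Finset.mem_univ _) h

theorem mem_St {n M : ℕ} (s : Fin n → Fin (M + 1)) : s ∈ St n M ↔ StrictAnti s := by
  classical
  simp [St]

theorem St_anti {n M : ℕ} (s : St n M) :
    StrictAnti (fun i => (((s : Fin n → Fin (M + 1)) i : Fin (M + 1)) : ℕ)) := by
  intro i j hij
  exact (mem_St _).1 s.2 hij

theorem part1 (L : Type) [Field L] (M n : ℕ) :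
    LinearIndependent L (fun s : St n M => (alt (fun i => ((s : Fin n → Fin (M + 1)) i : ℕ)) :
      MvPolynomial (Fin n) L)) := by
  rw [linearIndependent_iff']
  intro S g hg s hs
  have h1 := congrArg (fun f : MvPolynomial (Fin n) L =>
    f.coeff (Finsupp.equivFunOnFinite.symm fun i => (((s : Fin n → Fin (M + 1)) i : ℕ)))) hg
  simp only [MvPolynomial.coeff_sum, MvPolynomial.coeff_smul, MvPolynomial.coeff_zero,
    smul_eq_mul] at h1
  rw [Finset.sum_eq_single s] at h1
  · rw [coeff_alt _ _ (St_anti s) (St_anti s), if_pos rfl, mul_one] at h1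
    exact h1
  · intro s' _ hne
    rw [coeff_alt _ _ (St_anti s') (St_anti s), if_neg, mul_zero]
    intro h
    apply hne
    apply Subtype.ext
    funext i
    apply Fin.ext
    exact congrFun h i
  · intro h
    exact absurd hs h

/-! ### The Vandermonde alternant and elementary symmetric polynomials -/

theorem DD_anti (n : ℕ) : StrictAnti (fun i : Fin n => n - 1 - (i : ℕ)) := by
  intro i j hij
  have h1 := i.2
  have h2 := j.2
  have h3 : (i : ℕ) < j := hij
  show n - 1 - (j : ℕ) < n - 1 - (i : ℕ)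
  omega

theorem DD_ne (L : Type) [Field L] (n : ℕ) : DD L n ≠ 0 := by
  intro h
  have h1 := coeff_alt (L := L) _ _ (DD_anti n) (DD_anti n)
  rw [if_pos rfl] at h1
  have h2 : (alt fun i : Fin n => n - 1 - (i : ℕ) : MvPolynomial (Fin n) L) = 0 := h
  rw [h2, MvPolynomial.coeff_zero] at h1
  exact zero_ne_one h1

theorem part2 (L : Type) [Field L] (M n : ℕ) :
    LinearIndependent L (fun β : Bt n M => DD L n *
      ee (MvPolynomial.monomial (β : Fin n →₀ ℕ) (1 : L))) := by
  have h1 : LinearIndependent L (fun β : Bt n M =>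
      (MvPolynomial.monomial (β : Fin n →₀ ℕ) (1 : L) : MvPolynomial (Fin n) L)) := by
    have h2 := (MvPolynomial.basisMonomials (Fin n) L).linearIndependent
    have h3 := h2.comp (fun β : Bt n M => (β : Fin n →₀ ℕ)) Subtype.val_injective
    simpa [Function.comp_def] using h3
  obtain ⟨φ, hφ⟩ : ∃ φ : MvPolynomial (Fin n) L →ₗ[L] MvPolynomial (Fin n) L,
      ∀ f, φ f = DD L n * ee f :=
    ⟨(LinearMap.mulLeft L (DD L n)).comp
      ((MvPolynomial.symmetricSubalgebra (Fin n) L).val.toLinearMap.comp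
        (MvPolynomial.esymmAlgHom (Fin n) L n).toLinearMap), fun f => rfl⟩
  have hinj : Function.Injective φ := by
    rw [injective_iff_map_eq_zero]
    intro f hf
    rw [hφ] at hf
    have h2 := (mul_eq_zero.1 hf).resolve_left (DD_ne L n)
    have h3 : MvPolynomial.esymmAlgHom (Fin n) L n f = 0 := Subtype.ext h2
    exact (injective_iff_map_eq_zero _).1 (MvPolynomial.esymmAlgHom_fin_injective L le_rfl) f h3
  have h4 := h1.map' φ (LinearMap.ker_eq_bot.2 hinj)
  refine (Eq.mp ?_ h4)
  congr 1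
  funext β
  exact hφ _

/-! ### The count -/

/-- the sums of a tail -/
def S {n : ℕ} (β : Fin n → ℕ) (i : ℕ) : ℕ := ∑ j : Fin n, if i ≤ j then β j + 1 else 0

theorem S_succ {n : ℕ} (β : Fin n → ℕ) (i : Fin n) : S β i = β i + 1 + S β (i + 1) := by
  unfold S
  have h : ∀ j : Fin n, (if (i : ℕ) ≤ j then β j + 1 else 0) =
      (if j = i then β j + 1 else 0) + if (i : ℕ) + 1 ≤ j then β j + 1 else 0 := by
    intro j
    by_cases h1 : j = i
    · subst h1
      simp
    · rw [if_neg h1, zero_add]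
      have h2 : (j : ℕ) ≠ i := fun h => h1 (Fin.ext h)
      by_cases h3 : (i : ℕ) ≤ j
      · rw [if_pos h3, if_pos (by omega)]
      · rw [if_neg h3, if_neg (by omega)]
  simp only [h, Finset.sum_add_distrib, Finset.sum_ite_eq', Finset.mem_univ, if_true]

theorem S_anti {n : ℕ} (β : Fin n → ℕ) {i j : ℕ} (h : i ≤ j) : S β j ≤ S β i := by
  unfold S
  refine Finset.sum_le_sum fun k _ => ?_
  by_cases h1 : j ≤ k
  · rw [if_pos h1, if_pos (h.trans h1)]
  · rw [if_neg h1]
    exact Nat.zero_le _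

theorem S_n {n : ℕ} (β : Fin n → ℕ) : S β n = 0 := by
  unfold S
  refine Finset.sum_eq_zero fun k _ => ?_
  rw [if_neg]
  have := k.2
  omega

theorem S_zero {n : ℕ} (β : Fin n → ℕ) : S β 0 = (∑ i, β i) + n := by
  unfold S
  simp [Finset.sum_add_distrib]

theorem mem_Bt {n M : ℕ} (β : Fin n →₀ ℕ) : β ∈ Bt n M ↔ (∑ i, β i) + n ≤ M + 1 := by
  unfold Bt
  simp only [Finset.mem_filter, Finset.mem_biUnion, Finset.mem_range, Finset.mem_finsuppAntidiag]
  constructor
  · exact fun h => h.2
  · intro h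
    refine ⟨⟨∑ i, β i, by omega, rfl, fun _ _ => Finset.mem_univ _⟩, h⟩

theorem S_le {n M : ℕ} (β : Fin n →₀ ℕ) (h : β ∈ Bt n M) (i : ℕ) : S β i ≤ M + 1 := by
  have h1 := S_anti (β : Fin n → ℕ) (Nat.zero_le i)
  rw [S_zero] at h1
  exact h1.trans ((mem_Bt β).1 h)

theorem part3 (M n : ℕ) : (St n M).card = (Bt n M).card := by
  symm
  refine Finset.card_bij (fun β hβ => fun i : Fin n => (⟨S β i - 1, by
    have h1 := S_le β hβ i
    omega⟩ : Fin (M + 1))) ?_ ?_ ?_
  · intro β hβ
    rw [mem_St]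
    intro i j hij
    rw [Fin.lt_def]
    show S β j - 1 < S β i - 1
    have h1 := S_succ (β : Fin n → ℕ) i
    have h2 := S_succ (β : Fin n → ℕ) j
    have h3 : S β j ≤ S β (i + 1) := S_anti _ hij
    omega
  · intro β hβ β' hβ' h
    have h1 : ∀ i : Fin n, S β i = S β' i := by
      intro i
      have h2 := congrFun h i
      have h3 : S β i - 1 = S β' i - 1 := congrArg Fin.val h2
      have h4 := S_succ (β : Fin n → ℕ) i
      have h5 := S_succ (β' : Fin n → ℕ) i
      omega
    have h2 : ∀ i : ℕ, i ≤ n → S β i = S β' i := by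
      intro i hi
      rcases lt_or_eq_of_le hi with h | h
      · exact h1 ⟨i, h⟩
      · rw [h, S_n, S_n]
    ext i
    have h4 := S_succ (β : Fin n → ℕ) i
    have h5 := S_succ (β' : Fin n → ℕ) i
    have h6 := h2 (i + 1) i.2
    have h7 := h1 i
    omega
  · intro s hs
    rw [mem_St] at hs
    obtain ⟨T, hT⟩ : ∃ T : ℕ → ℕ, ∀ i, T i = if h : i < n then (s ⟨i, h⟩ : ℕ) + 1 else 0 :=
      ⟨_, fun i => rfl⟩
    have hT1 : ∀ i : Fin n, T i = (s i : ℕ) + 1 := fun i => by rw [hT, dif_pos i.2]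
    have hTn : T n = 0 := by rw [hT, dif_neg (lt_irrefl n)]
    have hTl : ∀ i : Fin n, T (i + 1) < T i := by
      intro i
      rw [hT1]
      rcases lt_or_eq_of_le (Nat.succ_le_of_lt i.2) with h | h
      · have h1 : T (i + 1) = (s ⟨i + 1, h⟩ : ℕ) + 1 := by rw [hT, dif_pos]
        rw [h1]
        have h2 : s ⟨i + 1, h⟩ < s i := hs (by rw [Fin.lt_def]; simp)
        have h3 : (s ⟨i + 1, h⟩ : ℕ) < s i := h2
        omega
      · have h1 : T (i + 1) = 0 := by
          rw [← hTn]
          congr 1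
        rw [h1]
        omega
    obtain ⟨β, hβ⟩ : ∃ β : Fin n →₀ ℕ, ∀ i, β i = T i - T (i + 1) - 1 :=
      ⟨Finsupp.equivFunOnFinite.symm fun i => T i - T (i + 1) - 1, fun i => rfl⟩
    have hS : ∀ k : ℕ, k ≤ n → S β (n - k) = T (n - k) := by
      intro k
      induction k with
      | zero =>
        intro _
        rw [Nat.sub_zero, S_n, hTn]
      | succ k ih =>
        intro hk
        have h1 := ih (by omega)
        have h2 := S_succ (β : Fin n → ℕ) ⟨n - (k + 1), by omega⟩
        have h3 : n - (k + 1) + 1 = n - k := by omega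
        have h4 := hTl ⟨n - (k + 1), by omega⟩
        have h5 := hβ ⟨n - (k + 1), by omega⟩
        simp only [h3] at h2 h4 h5
        omega
    have hS' : ∀ i : ℕ, i ≤ n → S β i = T i := by
      intro i hi
      have := hS (n - i) (by omega)
      rwa [show n - (n - i) = i by omega] at this
    have hB : β ∈ Bt n M := by
      rw [mem_Bt, ← S_zero, hS' 0 (Nat.zero_le _), hT]
      split_ifs with h
      · have := (s ⟨0, h⟩).2
        omega
      · omega
    refine ⟨β, hB, ?_⟩
    funext i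
    apply Fin.ext
    show S β i - 1 = s i
    rw [hS' i i.2.le, hT1]
    rfl

/-! ### The degree -/

theorem degreeOf_alt {L : Type} [Field L] {n : ℕ} (s : Fin n → ℕ) (d : ℕ) (h : ∀ i, s i ≤ d)
    (i : Fin n) : (alt s : MvPolynomial (Fin n) L).degreeOf i ≤ d := by
  rw [alt_eq]
  refine (MvPolynomial.degreeOf_sum_le _ _ _).trans (Finset.sup_le fun σ _ => ?_)
  refine (MvPolynomial.degreeOf_C_mul_le _ _ _).trans ?_
  rw [MvPolynomial.degreeOf_monomial_eq _ _ one_ne_zero]
  exact h _

theorem degreeOf_esymm_le {L : Type} [Field L] {n : ℕ} (k : ℕ) (i : Fin n) :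
    (MvPolynomial.esymm (Fin n) L k).degreeOf i ≤ 1 := by
  unfold MvPolynomial.esymm
  refine (MvPolynomial.degreeOf_sum_le _ _ _).trans (Finset.sup_le fun t _ => ?_)
  refine (MvPolynomial.degreeOf_prod_le _ _ _).trans ?_
  simp only [MvPolynomial.degreeOf_X]
  rw [Finset.sum_ite_eq]
  split_ifs <;> omega

theorem degreeOf_ee {L : Type} [Field L] {n : ℕ} (β : Fin n →₀ ℕ) (i : Fin n) :
    (ee (MvPolynomial.monomial β (1 : L))).degreeOf i ≤ ∑ j, β j := by
  have h1 : ee (MvPolynomial.monomial β (1 : L)) =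
      ∏ j : Fin n, MvPolynomial.esymm (Fin n) L (j + 1) ^ β j := by
    unfold ee
    rw [show ((MvPolynomial.esymmAlgHom (Fin n) L n (MvPolynomial.monomial β 1) :
      MvPolynomial.symmetricSubalgebra (Fin n) L) : MvPolynomial (Fin n) L) = _ from
      MvPolynomial.esymmAlgHom_apply (MvPolynomial.monomial β 1)]
    rw [MvPolynomial.aeval_monomial, map_one, one_mul, Finsupp.prod_fintype _ _ (by simp)]
  rw [h1]
  refine (MvPolynomial.degreeOf_prod_le _ _ _).trans (Finset.sum_le_sum fun j _ => ?_)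
  refine (MvPolynomial.degreeOf_pow_le _ _ _).trans ?_
  calc β j * (MvPolynomial.esymm (Fin n) L (j + 1)).degreeOf i ≤ β j * 1 :=
        Nat.mul_le_mul_left _ (degreeOf_esymm_le _ _)
    _ = β j := mul_one _

theorem part4 (L : Type) [Field L] (M n : ℕ) (β : Fin n →₀ ℕ) (hβ : β ∈ Bt n M) (i : Fin n) :
    (DD L n * ee (MvPolynomial.monomial β 1)).degreeOf i ≤ M := by
  have h1 := MvPolynomial.degreeOf_mul_le i (DD L n) (ee (MvPolynomial.monomial β 1))
  have h2 : (DD L n).degreeOf i ≤ n - 1 := degreeOf_alt _ _ (fun j => Nat.sub_le _ _) i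
  have h3 := degreeOf_ee (L := L) β i
  have h4 := (mem_Bt β).1 hβ
  have h5 := i.2
  omega

/-- GK-TA5 -/
theorem ta5 : S_TA5 := by
  intro L _ M n
  exact ⟨part1 L M n, part2 L M n, part3 M n, part4 L M n⟩

end Pool.Agent.W585.GK.TA5
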